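import Pool.Agent.Helper86.CK.KM

/-!
Packed machine with differences of two links (identity blocks of near cells): the factor
`u = 2 ^ 2304 - 1` of a test is minus one.
-/

set_option autoImplicit false
set_option exponentiation.threshold 4000
noncomputable section
namespace Pool.Agent.Helper39.CKX

open Pool.Agent.Helper86.CX hiding nb
open Pool.Agent.Helper86.CT (Mc Ps ps0 Pr N3)
open Pool.Agent.Helper86.CK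
open Pool.Agent.Helper90.C75 (Vt)
open Pool.Agent.Helper90.KMT (mf0 nmf)
open Pool.Agent.Helper17.KPT
open Pool.Agent.Helper21.KTE (MX MZ)
open Pool.Agent.Helper21.KRN (cN1 cN2 cN3 cN4)

/-- the sign of a packed product reversed -/
theorem RG.neg {D : ℕ} {g : Vt D → ℕ} {p n b : ℕ} (h : RG D g p n b) :
    RG D (fun u => md (Nat.mul NG (g u))) n p b := by
  intro hb
  obtain ⟨N, h1, h2⟩ := h hb
  refine ⟨fun v => -1 * N v, ?_, fun u => ⟨?_, ?_⟩⟩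
  · rw [k9_mul, ← h1]
    ring
  · show |(-1 : ℤ) * N u| ≤ b
    rw [abs_mul, abs_neg, abs_one, one_mul]
    exact (h2 u).1
  · have hM : ((MM : ℕ) : ℤ) = 2 ^ 2304 := by
      rw [show MM = 2 ^ 2304 from rfl]
      norm_cast
    have hN : ((NG : ℕ) : ℤ) = 2 ^ 2304 - 1 := by
      have e : NG + 1 = MM := rfl
      have e2 : ((NG : ℕ) : ℤ) + 1 = ((MM : ℕ) : ℤ) := by exact_mod_cast e
      rw [hM] at e2
      linarith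
    have h3 : ((md (Nat.mul NG (g u)) : ℕ) : ℤ) ≡ ((NG * g u : ℕ) : ℤ) [ZMOD 2 ^ 2304] := by
      rw [← hM]
      unfold md
      show (((NG * g u) % MM : ℕ) : ℤ) ≡ _ [ZMOD _]
      rw [Int.natCast_mod]
      exact Int.mod_modEq _ _
    have h4 : ((NG * g u : ℕ) : ℤ) ≡ -1 * (g u : ℤ) [ZMOD 2 ^ 2304] := by
      push_cast
      rw [hN]
      refine (Int.modEq_iff_dvd.2 ⟨-(g u : ℤ), ?_⟩)
      ring
    exact ((h2 u).2.mul_left (-1)).trans (h4.symm.trans h3.symm)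

theorem ps0_neg {v w ca cb x y z : ℕ}
    (h : ps0 1 v w ca cb (md (Nat.mul NG x)) y z = true) : ps0 NG v w ca cb x y z = true := by
  have e : md (Nat.add (Nat.add (Nat.mul 1 (md (Nat.mul NG x))) (Nat.mul v (Nat.add (Nat.mul ca y)
      (Nat.mul cb z)))) w) = md (Nat.add (Nat.add (Nat.mul NG x) (Nat.mul v (Nat.add (Nat.mul ca y)
      (Nat.mul cb z)))) w) := by
    unfold md
    show (1 * ((NG * x) % MM) + v * (ca * y + cb * z) + w) % MM =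
      (NG * x + v * (ca * y + cb * z) + w) % MM
    rw [one_mul, add_assoc, add_assoc, Nat.mod_add_mod]
  unfold ps0 at h ⊢
  rw [e] at h
  exact h

variable {D : ℕ}

/-- the tests; `u = NG` is `-1` -/
def psX (S : SL) (ls : List Nat) : Ps (GK D) :=
  ⟨fun u v w ca cb x y z => Bool.rec (motive := fun _ => Bool)
    (psB S ls u v (md w) ca cb x.p x.n x.b y.p y.n y.b z.p z.n z.b)
    (psB S ls (nat_lit 1) v (md w) ca cb x.n x.p x.b y.p y.n y.b z.p z.n z.b) (Nat.beq u NG)⟩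

theorem psX_ok {S : SL} (hS : S = SC D) {ls : List ℕ} (hl : ls = shs (3 ^ D)) {u v w ca cb : ℕ}
    {x y z : GK D} (h : (psX S ls).t u v w ca cb x y z = true) (q : Vt D) :
    ps0 u v w ca cb (x.g q) (y.g q) (z.g q) = true := by
  obtain rfl := hS
  obtain rfl := hl
  have h' : Bool.rec (motive := fun _ => Bool)
    (psB (SC D) (shs (3 ^ D)) u v (md w) ca cb x.p x.n x.b y.p y.n y.b z.p z.n z.b)
    (psB (SC D) (shs (3 ^ D)) (nat_lit 1) v (md w) ca cb x.n x.p x.b y.p y.n y.b z.p z.n z.b)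
    (Nat.beq u NG) = true := h
  cases hb : Nat.beq u NG with
  | false =>
    rw [hb] at h'
    exact ps_ok x.h y.h z.h h' q
  | true =>
    rw [hb] at h'
    have e : u = NG := Nat.eq_of_beq_eq_true hb
    rw [e]
    exact ps0_neg (ps_ok (RG.neg x.h) y.h z.h h' q)

/-! ### the machines -/

def K1x : Mc (PA 1) (Pr Nat) (PZ 1) (N3 VR) (GK 1) :=
  ⟨AK hC1, ⟨tsK C1⟩, ⟨upK hC1 Uk1_ok⟩, ⟨zpK hM1⟩, bilK hS1 Mu1_ok, lkK hS1.1 Lk1_ok,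
    psX S1c (shs (nat_lit 3)), (nat_lit 2), (nat_lit 134217728)⟩
def K2x : Mc (PA 2) (Pr (Pr Nat)) (PZ 2) (N3 (N3 VR)) (GK 2) :=
  ⟨AK hC2, ⟨tsK C2⟩, ⟨upK hC2 Uk2_ok⟩, ⟨zpK hM2⟩, bilK hS2 Mu2_ok, lkK hS2.1 Lk2_ok,
    psX S2c (shs (nat_lit 9)), (nat_lit 4), (nat_lit 67108864)⟩
def K3x : Mc (PA 3) (Pr (Pr (Pr Nat))) (PZ 3) (N3 (N3 (N3 VR))) (GK 3) :=
  ⟨AK hC3, ⟨tsK C3⟩, ⟨upK hC3 Uk3_ok⟩, ⟨zpK hM3⟩, bilK hS3 Mu3_ok, lkK hS3.1 Lk3_ok,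
    psX S3c (shs (nat_lit 27)), (nat_lit 8), (nat_lit 33554432)⟩
def K4x : Mc (PA 4) (Pr (Pr (Pr (Pr Nat)))) (PZ 4) (N3 (N3 (N3 (N3 VR)))) (GK 4) :=
  ⟨AK hC4, ⟨tsK C4⟩, ⟨upK hC4 Uk4_ok⟩, ⟨zpK hM4⟩, bilK hS4 Mu4_ok, lkK hS4.1 Lk4_ok,
    psX S4c (shs (nat_lit 81)), (nat_lit 16), (nat_lit 16777216)⟩

theorem K1x_ok : MK 1 lcK lfK (nmf 0 mf0) PZ.g l1 GK.g SpK s1 SgK K1x :=
  ⟨K1k_ok.cl, K1k_ok.z, K1k_ok.b, K1k_ok.l, fun h q => psX_ok hS1.1 rfl h q, rfl, by norm_num⟩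
theorem K2x_ok : MK 2 lcK lfK (nmf 1 (nmf 0 mf0)) PZ.g l2 GK.g SpK s2 SgK K2x :=
  ⟨K2k_ok.cl, K2k_ok.z, K2k_ok.b, K2k_ok.l, fun h q => psX_ok hS2.1 rfl h q, rfl, by norm_num⟩
theorem K3x_ok : MK 3 lcK lfK (nmf 2 (nmf 1 (nmf 0 mf0))) PZ.g l3 GK.g SpK s3 SgK K3x :=
  ⟨K3k_ok.cl, K3k_ok.z, K3k_ok.b, K3k_ok.l, fun h q => psX_ok hS3.1 rfl h q, rfl, by norm_num⟩
theorem K4x_ok : MK 4 lcK lfK (nmf 3 (nmf 2 (nmf 1 (nmf 0 mf0)))) PZ.g l4 GK.g SpK s4 SgK K4x :=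
  ⟨K4k_ok.cl, K4k_ok.z, K4k_ok.b, K4k_ok.l, fun h q => psX_ok hS4.1 rfl h q, rfl, by norm_num⟩

theorem MX1x : MX 1 lcK lfK (nmf 0 mf0) PZ.g l1 GK.g SaK SpK s1 SgK K1x Q1k cN1 :=
  ⟨K1x_ok, Q1k_ok, AOKK hC1, rfl, SHLK hC1, DZK hC1, SFK, Pool.Agent.Helper21.KTE.MN1, UK1, rfl,
    TLWK hC1, Pool.Agent.Helper21.KTE.CV1⟩
theorem MX2x : MX 2 lcK lfK (nmf 1 (nmf 0 mf0)) PZ.g l2 GK.g SaK SpK s2 SgK K2x Q2k cN2 :=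
  ⟨K2x_ok, Q2k_ok, AOKK hC2, rfl, SHLK hC2, DZK hC2, SFK, Pool.Agent.Helper21.KTE.MN2, UK2, rfl,
    TLWK hC2, Pool.Agent.Helper21.KTE.CV2⟩
theorem MX3x : MX 3 lcK lfK (nmf 2 (nmf 1 (nmf 0 mf0))) PZ.g l3 GK.g SaK SpK s3 SgK K3x Q3k cN3 :=
  ⟨K3x_ok, Q3k_ok, AOKK hC3, rfl, SHLK hC3, DZK hC3, SFK, Pool.Agent.Helper21.KTE.MN3, UK3, rfl,
    TLWK hC3, Pool.Agent.Helper21.KTE.CV3⟩
theorem MX4x : MX 4 lcK lfK (nmf 3 (nmf 2 (nmf 1 (nmf 0 mf0)))) PZ.g l4 GK.g SaK SpK s4 SgK K4x Q4k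
    cN4 :=
  ⟨K4x_ok, Q4k_ok, AOKK hC4, rfl, SHLK hC4, DZK hC4, SFK, Pool.Agent.Helper21.KTE.MN4, UK4, rfl,
    TLWK hC4, Pool.Agent.Helper21.KTE.CV4⟩

theorem MZ1x : MZ 0 lcK lfK (nmf 0 mf0) PZ.g l1 GK.g SaK SpK s1 SgK K1x Q1k cN1
    Pool.Agent.Helper21.KRN.rC1 Pool.Agent.Helper86.CK.S1 Pool.Agent.Helper86.CT.W1 y1k qd1k rtK :=
  ⟨MX1x, MZ1k.s, MZ1k.w, MZ1k.y, MZ1k.r, MZ1k.q, MZ1k.t⟩
theorem MZ2x : MZ 1 lcK lfK (nmf 1 (nmf 0 mf0)) PZ.g l2 GK.g SaK SpK s2 SgK K2x Q2k cN2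
    Pool.Agent.Helper21.KRN.rC2 Pool.Agent.Helper86.CK.S2 Pool.Agent.Helper86.CT.W2 y2k qd2k rtK :=
  ⟨MX2x, MZ2k.s, MZ2k.w, MZ2k.y, MZ2k.r, MZ2k.q, MZ2k.t⟩
theorem MZ3x : MZ 2 lcK lfK (nmf 2 (nmf 1 (nmf 0 mf0))) PZ.g l3 GK.g SaK SpK s3 SgK K3x Q3k cN3
    Pool.Agent.Helper21.KRN.rC3 Pool.Agent.Helper86.CK.S3 Pool.Agent.Helper86.CT.W3 y3k qd3k rtK :=
  ⟨MX3x, MZ3k.s, MZ3k.w, MZ3k.y, MZ3k.r, MZ3k.q, MZ3k.t⟩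
theorem MZ4x : MZ 3 lcK lfK (nmf 3 (nmf 2 (nmf 1 (nmf 0 mf0)))) PZ.g l4 GK.g SaK SpK s4 SgK K4x Q4k
    cN4 Pool.Agent.Helper21.KRN.rC4 Pool.Agent.Helper86.CK.S4 Pool.Agent.Helper86.CT.W4 y4k qd4k
    rtK :=
  ⟨MX4x, MZ4k.s, MZ4k.w, MZ4k.y, MZ4k.r, MZ4k.q, MZ4k.t⟩

end Pool.Agent.Helper39.CKX
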