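import Pool.Agent.Helper39.CT.NFQ
import Pool.Agent.Helper39.CK.KX

/-!
The line `x_B` with the exact sign test, packed machine of depth four, both orders of directions.
-/

set_option autoImplicit false
set_option exponentiation.threshold 4000
noncomputable section
namespace Pool.Agent.Helper39.CKX

open Pool.Agent.Helper6.MONO.XTH (chkB)
open Pool.Agent.Helper86.CX (Cx)
open Pool.Agent.Helper86.CT (N3)
open Pool.Agent.Helper86.CK
open Pool.Agent.Helper90.KMT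
open Pool.Agent.Helper90.C75 (Vt)
open Pool.Agent.Helper21.KTE
open Pool.Agent.Helper21.XB
open Pool.Agent.Helper39.NFT (lqr avqr)

theorem lf4_fr (C : N3 (N3 (N3 (N3 Cx)))) : lfK (fr4 C) = nlf (nlf (nlf (nlf lf0))) C :=
  fr_lf Pk4_ok Pool.Agent.Helper17.KPT.cl_4 C

/-- the average of the packed literal -/
theorem avk {C : N3 (N3 (N3 (N3 Cx)))} {X : Fin 3 → Fin 3 → Fin 3 → ℤ} {s0 s1 s2 : KS}
    (h : AvQ 3 (nlf (nlf (nlf (nlf lf0)))) C X s0 s1 s2) : AvQ 3 lfK (fr4 C) X s0 s1 s2 := by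
  intro t ht
  rw [lf4_fr]
  exact h t ht

/-- the data of a literal tree, packed machine, three tails, order of the converters
(`κ_0` : direction 2, `κ_1` : direction 1, `κ_2` : direction 0) -/
theorem xqdrk {C0 : PA 4} {C : N3 (N3 (N3 (N3 Cx)))} {n m l0 h0 l1 h1 l2 h2 : ℕ}
    (hs : (isk C && (rt4 C && (Pool.Agent.Helper86.CX.evC l0 h0 &&
      (Pool.Agent.Helper86.CX.evC l1 h1 && Pool.Agent.Helper86.CX.evC l2 h2)))) = true)
    (hc : chkB ![(l0 : ℤ), l1, l2] ![(h0 : ℤ), h1, h2] (lqr C) (m : ℤ) = true)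
    (hm : modQ (AK hC4) rtK ((KS.T 2 l0 h0).mo (AK hC4) qd4k) ((KS.T 1 l1 h1).mo (AK hC4) qd4k)
      ((KS.T 0 l2 h2).mo (AK hC4) qd4k) C0 n (fr4 C) m (KS.T 2 l0 h0) (KS.T 1 l1 h1)
      (KS.T 0 l2 h2) (lqr C) = true) :
    XQD 3 lfK (AK hC4) qd4k rtK C0 n (fr4 C) m (KS.T 2 l0 h0) (KS.T 1 l1 h1) (KS.T 0 l2 h2)
      (lqr C) := by
  simp only [Bool.and_eq_true] at hs
  obtain ⟨a1, a2, a3, a4, a5⟩ := hs
  refine ⟨avk (avqr a1 a2), ?_, ?_, ?_, hc, hm⟩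
  · show (Nat.blt 2 3 && Pool.Agent.Helper86.CX.evC l0 h0) = true
    rw [a3]
    rfl
  · show (Nat.blt 1 3 && Pool.Agent.Helper86.CX.evC l1 h1) = true
    rw [a4]
    rfl
  · show (Nat.blt 0 3 && Pool.Agent.Helper86.CX.evC l2 h2) = true
    rw [a5]
    rfl

/-- the data of a literal tree, packed machine, three tails, order `κ_0` : direction 0,
`κ_1` : direction 1, `κ_2` : direction 2 -/
theorem xqd4k {C0 : PA 4} {C : N3 (N3 (N3 (N3 Cx)))} {n m l0 h0 l1 h1 l2 h2 : ℕ}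
    (hs : (isk C && (rt4 C && (Pool.Agent.Helper86.CX.evC l0 h0 &&
      (Pool.Agent.Helper86.CX.evC l1 h1 && Pool.Agent.Helper86.CX.evC l2 h2)))) = true)
    (hc : chkB ![(l0 : ℤ), l1, l2] ![(h0 : ℤ), h1, h2] (lq4 C) (m : ℤ) = true)
    (hm : modQ (AK hC4) rtK ((KS.T 0 l0 h0).mo (AK hC4) qd4k) ((KS.T 1 l1 h1).mo (AK hC4) qd4k)
      ((KS.T 2 l2 h2).mo (AK hC4) qd4k) C0 n (fr4 C) m (KS.T 0 l0 h0) (KS.T 1 l1 h1)
      (KS.T 2 l2 h2) (lq4 C) = true) :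
    XQD 3 lfK (AK hC4) qd4k rtK C0 n (fr4 C) m (KS.T 0 l0 h0) (KS.T 1 l1 h1) (KS.T 2 l2 h2)
      (lq4 C) := by
  simp only [Bool.and_eq_true] at hs
  obtain ⟨a1, a2, a3, a4, a5⟩ := hs
  refine ⟨avk (avq4 a1 a2), ?_, ?_, ?_, hc, hm⟩
  · show (Nat.blt 0 3 && Pool.Agent.Helper86.CX.evC l0 h0) = true
    rw [a3]
    rfl
  · show (Nat.blt 1 3 && Pool.Agent.Helper86.CX.evC l1 h1) = true
    rw [a4]
    rfl
  · show (Nat.blt 2 3 && Pool.Agent.Helper86.CX.evC l2 h2) = true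
    rw [a5]
    rfl

end Pool.Agent.Helper39.CKX
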